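import Pool.Agent.Q130.TC.Stm2

/-!
# Project TC (helper130): directions with a large component (CMA)
-/

set_option autoImplicit false

namespace Pool.Agent.Q275.TC

open MeasureTheory Set Metric Filter Topology
open scoped InnerProductSpace ENNReal NNReal ComplexConjugate
open Pool.Agent.Y283.NK (ct)
open Pool.Agent.Q130.TC

/-! ### the norm `nm` -/

theorem nm_eq (m : ℕ) (c : ℕ → ℂ) :
    nm m c = ‖(WithLp.toLp 2 (fun i : Fin m => c i) : EuclideanSpace ℂ (Fin m))‖ := by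
  rw [EuclideanSpace.norm_eq, nm, Finset.sum_range]

theorem nm_add (m : ℕ) (a b : ℕ → ℂ) : nm m (fun i => a i + b i) ≤ nm m a + nm m b := by
  rw [nm_eq, nm_eq, nm_eq]
  refine le_trans (le_of_eq ?_) (norm_add_le _ _)
  congr 1

theorem le_nm (m : ℕ) (c : ℕ → ℂ) {j : ℕ} (hj : j < m) : ‖c j‖ ≤ nm m c := by
  refine Real.le_sqrt_of_sq_le ?_
  exact Finset.single_le_sum (f := fun i => ‖c i‖ ^ 2) (fun i _ => by positivity)
    (Finset.mem_range.2 hj)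

/-- Hilbert-Schmidt bound -/
theorem nm_hs (m : ℕ) (s : Finset ℕ) (F : ℕ → ℕ → ℂ) (c : ℕ → ℂ) :
    nm m (fun i => ∑ j ∈ s, F i j * c j) ≤
      √(∑ p ∈ Finset.range m ×ˢ s, ‖F p.1 p.2‖ ^ 2) * √(∑ j ∈ s, ‖c j‖ ^ 2) := by
  rw [← Real.sqrt_mul (Finset.sum_nonneg fun _ _ => by positivity), nm]
  refine Real.sqrt_le_sqrt ?_
  rw [Finset.sum_product, Finset.sum_mul]
  refine Finset.sum_le_sum fun i _ => ?_
  have h1 : ‖∑ j ∈ s, F i j * c j‖ ≤ ∑ j ∈ s, ‖F i j‖ * ‖c j‖ := by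
    refine (norm_sum_le _ _).trans (le_of_eq ?_)
    refine Finset.sum_congr rfl fun j _ => ?_
    rw [norm_mul]
  calc ‖∑ j ∈ s, F i j * c j‖ ^ 2 ≤ (∑ j ∈ s, ‖F i j‖ * ‖c j‖) ^ 2 :=
        pow_le_pow_left₀ (norm_nonneg _) h1 2
    _ ≤ (∑ j ∈ s, ‖F i j‖ ^ 2) * ∑ j ∈ s, ‖c j‖ ^ 2 := Finset.sum_mul_sq_le_sq_mul_sq _ _ _

theorem ptw (m J : ℕ) (c : ℕ → ℂ) (F : ℕ → ℕ → ℂ) {Λ θ : ℝ} (hΛ : 0 < Λ) (hc : nm m c = 1)
    (hA : nm m (fun i => c i - ∑ j ∈ Finset.range m, F i j * c j) < 1 / 4)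
    (h1 : √(∑ p ∈ Finset.range m ×ˢ (Finset.range m).filter (fun j => ¬ j < J),
      ‖F p.1 p.2‖ ^ 2) < 1 / 4)
    (h2 : √(∑ p ∈ Finset.range m ×ˢ (Finset.range m).filter (fun j => j < J),
      ‖F p.1 p.2‖ ^ 2) < Λ)
    (hθ0 : 0 ≤ θ) (hθ : J * θ ≤ 1 / (4 * Λ)) : ∃ j < J, j < m ∧ θ < ‖c j‖ := by
  by_contra hcon
  push Not at hcon
  set s1 := (Finset.range m).filter (fun j => ¬ j < J) with hs1
  set s2 := (Finset.range m).filter (fun j => j < J) with hs2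
  have e1 : c = fun i => (c i - ∑ j ∈ Finset.range m, F i j * c j) +
      ((∑ j ∈ s1, F i j * c j) + ∑ j ∈ s2, F i j * c j) := by
    funext i
    have h3 := Finset.sum_filter_add_sum_filter_not (Finset.range m) (fun j => j < J)
      (fun j => F i j * c j)
    rw [← hs1, ← hs2] at h3
    rw [← h3]
    ring
  have b1 : nm m (fun i => ∑ j ∈ s1, F i j * c j) ≤ 1 / 4 := by
    refine (nm_hs m s1 F c).trans ?_
    have h3 : √(∑ j ∈ s1, ‖c j‖ ^ 2) ≤ 1 := by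
      rw [← hc, nm]
      refine Real.sqrt_le_sqrt ?_
      exact Finset.sum_le_sum_of_subset_of_nonneg (Finset.filter_subset _ _)
        fun _ _ _ => by positivity
    calc _ ≤ 1 / 4 * (1:ℝ) := mul_le_mul h1.le h3 (Real.sqrt_nonneg _) (by norm_num)
      _ = 1 / 4 := by norm_num
  have b2 : nm m (fun i => ∑ j ∈ s2, F i j * c j) ≤ 1 / 4 := by
    refine (nm_hs m s2 F c).trans ?_
    have h3 : √(∑ j ∈ s2, ‖c j‖ ^ 2) ≤ 1 / (4 * Λ) := by
      have h4 : √(∑ j ∈ s2, ‖c j‖ ^ 2) ≤ ∑ j ∈ s2, ‖c j‖ := by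
        refine (Real.sqrt_le_left (Finset.sum_nonneg fun _ _ => norm_nonneg _)).2 ?_
        exact Finset.sum_sq_le_sq_sum_of_nonneg fun _ _ => norm_nonneg _
      have h5 : ∑ j ∈ s2, ‖c j‖ ≤ ∑ j ∈ s2, θ := by
        refine Finset.sum_le_sum fun j hj => ?_
        rw [hs2, Finset.mem_filter, Finset.mem_range] at hj
        exact hcon j hj.2 hj.1
      have h6 : ∑ j ∈ s2, θ ≤ J * θ := by
        rw [Finset.sum_const, nsmul_eq_mul]
        refine mul_le_mul_of_nonneg_right ?_ hθ0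
        have h7 : s2 ⊆ Finset.range J := by
          intro j hj
          rw [hs2, Finset.mem_filter] at hj
          exact Finset.mem_range.2 hj.2
        have h8 := Finset.card_le_card h7
        rw [Finset.card_range] at h8
        exact_mod_cast h8
      linarith
    calc _ ≤ Λ * (1 / (4 * Λ)) := mul_le_mul h2.le h3 (Real.sqrt_nonneg _) hΛ.le
      _ = 1 / 4 := by field_simp
  have h9 : nm m c ≤ nm m (fun i => c i - ∑ j ∈ Finset.range m, F i j * c j) +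
      (nm m (fun i => ∑ j ∈ s1, F i j * c j) + nm m (fun i => ∑ j ∈ s2, F i j * c j)) := by
    conv_lhs => rw [e1]
    exact (nm_add _ _ _).trans (add_le_add_right (nm_add _ _ _) _)
  linarith

section

variable {S : Type} [MeasurableSpace S] {μ : Measure S}

theorem l2_int (f : Lp ℂ 2 μ) : Integrable (fun s => ‖f s‖ ^ 2) μ := by
  have h1 := (L2.integrable_inner (𝕜 := ℂ) f f).norm
  refine h1.congr (Eventually.of_forall fun s => ?_)
  show ‖⟪f s, f s⟫_ℂ‖ = ‖f s‖ ^ 2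
  rw [inner_self_eq_norm_sq_to_K, norm_pow]
  simp

theorem l2_sq (f : Lp ℂ 2 μ) : ∫ s, ‖f s‖ ^ 2 ∂μ = ‖f‖ ^ 2 := by
  have h1 : ⟪f, f⟫_ℂ = ∫ s, ⟪f s, f s⟫_ℂ ∂μ := L2.inner_def f f
  have h2 : ∫ s, ⟪f s, f s⟫_ℂ ∂μ = ((∫ s, ‖f s‖ ^ 2 ∂μ : ℝ) : ℂ) := by
    rw [← integral_complex_ofReal]
    refine integral_congr_ae (Eventually.of_forall fun s => ?_)
    show ⟪f s, f s⟫_ℂ = ((‖f s‖ ^ 2 : ℝ) : ℂ)
    rw [inner_self_eq_norm_sq_to_K]
    simp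
  rw [h2, inner_self_eq_norm_sq_to_K] at h1
  have h3 : ((‖f‖ ^ 2 : ℝ) : ℂ) = ((∫ s, ‖f s‖ ^ 2 ∂μ : ℝ) : ℂ) := by
    rw [← h1]
    simp
  exact (Complex.ofReal_injective h3).symm

theorem prod_int (u v : Lp ℂ 2 μ) : Integrable (fun s => conj (v s) * u s) μ := by
  refine (L2.integrable_inner (𝕜 := ℂ) v u).congr (Eventually.of_forall fun s => ?_)
  show ⟪v s, u s⟫_ℂ = conj (v s) * u s
  rw [RCLike.inner_apply, mul_comm]

theorem prod_bound (u v : ℕ → Lp ℂ 2 μ) (I J : Finset ℕ) {U V : ℝ} (hU : 0 < U) (hV : 0 < V)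
    (h1 : ∑ j ∈ J, ‖u j‖ ^ 2 ≤ U ^ 2) (h2 : ∑ i ∈ I, ‖v i‖ ^ 2 ≤ V ^ 2) :
    ∫ s, √(∑ p ∈ I ×ˢ J, ‖conj (v p.1 s) * u p.2 s‖ ^ 2) ∂μ ≤ V * U := by
  have ia : Integrable (fun s => ∑ i ∈ I, ‖v i s‖ ^ 2) μ :=
    integrable_finsetSum _ fun i _ => l2_int (v i)
  have ib : Integrable (fun s => ∑ j ∈ J, ‖u j s‖ ^ 2) μ :=
    integrable_finsetSum _ fun i _ => l2_int (u i)
  have h3 : ∫ s, √(∑ p ∈ I ×ˢ J, ‖conj (v p.1 s) * u p.2 s‖ ^ 2) ∂μ ≤
      ∫ s, (U / (2 * V) * (∑ i ∈ I, ‖v i s‖ ^ 2) + V / (2 * U) * ∑ j ∈ J, ‖u j s‖ ^ 2) ∂μ := by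
    refine integral_mono_of_nonneg (Eventually.of_forall fun s => Real.sqrt_nonneg _)
      ((ia.const_mul _).add (ib.const_mul _)) (Eventually.of_forall fun s => ?_)
    show √(∑ p ∈ I ×ˢ J, ‖conj (v p.1 s) * u p.2 s‖ ^ 2) ≤
      U / (2 * V) * (∑ i ∈ I, ‖v i s‖ ^ 2) + V / (2 * U) * ∑ j ∈ J, ‖u j s‖ ^ 2
    have e1 : ∑ p ∈ I ×ˢ J, ‖conj (v p.1 s) * u p.2 s‖ ^ 2 =
        (∑ i ∈ I, ‖v i s‖ ^ 2) * ∑ j ∈ J, ‖u j s‖ ^ 2 := by
      rw [Finset.sum_product, Finset.sum_mul_sum]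
      refine Finset.sum_congr rfl fun i _ => Finset.sum_congr rfl fun j _ => ?_
      rw [norm_mul, RCLike.norm_conj, mul_pow]
    rw [e1]
    set a := ∑ i ∈ I, ‖v i s‖ ^ 2
    set b := ∑ j ∈ J, ‖u j s‖ ^ 2
    have ha : 0 ≤ a := Finset.sum_nonneg fun _ _ => by positivity
    have hb : 0 ≤ b := Finset.sum_nonneg fun _ _ => by positivity
    refine (Real.sqrt_le_left (by positivity)).2 ?_
    have e2 : U / (2 * V) * a * (V / (2 * U) * b) = a * b / 4 := by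
      field_simp
      ring
    nlinarith [sq_nonneg (U / (2 * V) * a - V / (2 * U) * b)]
  have h4 : ∫ s, (U / (2 * V) * (∑ i ∈ I, ‖v i s‖ ^ 2) + V / (2 * U) * ∑ j ∈ J, ‖u j s‖ ^ 2) ∂μ =
      U / (2 * V) * (∑ i ∈ I, ‖v i‖ ^ 2) + V / (2 * U) * ∑ j ∈ J, ‖u j‖ ^ 2 := by
    rw [integral_add (ia.const_mul _) (ib.const_mul _), integral_const_mul, integral_const_mul,
      integral_finsetSum _ fun i _ => l2_int (v i), integral_finsetSum _ fun i _ => l2_int (u i)]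
    simp only [l2_sq]
  have h5 : U / (2 * V) * (∑ i ∈ I, ‖v i‖ ^ 2) ≤ U / (2 * V) * V ^ 2 :=
    mul_le_mul_of_nonneg_left h2 (by positivity)
  have h6 : V / (2 * U) * (∑ j ∈ J, ‖u j‖ ^ 2) ≤ V / (2 * U) * U ^ 2 :=
    mul_le_mul_of_nonneg_left h1 (by positivity)
  have h7 : U / (2 * V) * V ^ 2 + V / (2 * U) * U ^ 2 = V * U := by
    field_simp
    ring
  linarith

theorem ct_zero (φ : S → ℂ) (u : Lp ℂ 2 μ) (z : ℂ) : ct φ (0 : Lp ℂ 2 μ) u z = 0 := by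
  unfold ct
  rw [integral_eq_zero_of_ae]
  filter_upwards [Lp.coeFn_zero ℂ 2 μ] with s hs
  rw [hs]
  simp

end

theorem vanish {a : ℕ → ℝ} (ha : Summable a) {ε : ℝ} (hε : 0 < ε) :
    ∃ J : ℕ, ∀ s : Finset ℕ, (∀ j ∈ s, J ≤ j) → ∑ j ∈ s, a j ≤ ε := by
  obtain ⟨s0, hs0⟩ := summable_iff_vanishing_norm.1 ha ε hε
  refine ⟨s0.sup id + 1, fun s hs => ?_⟩
  have hd : Disjoint s s0 := Finset.disjoint_left.2 fun a ha ha' => by
    have h1 := hs a ha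
    have h2 : id a ≤ s0.sup id := Finset.le_sup ha'
    simp only [id] at h2
    omega
  exact (le_abs_self _).trans (hs0 s hd).le

theorem fin_le {a : ℕ → ℝ} (ha : Summable a) (h0 : ∀ j, 0 ≤ a j) (s : Finset ℕ) :
    ∑ j ∈ s, a j ≤ (√(∑' j, a j) + 1) ^ 2 := by
  have h1 := ha.sum_le_tsum s fun j _ => h0 j
  have h2 : 0 ≤ ∑' j, a j := tsum_nonneg h0
  have h3 := Real.sq_sqrt h2
  have h4 := Real.sqrt_nonneg (∑' j, a j)
  nlinarith

theorem cma (h1 : S_CAU) (h2 : S_MZ) : Pool.Agent.Q130.TC.S_CMA := by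
  obtain ⟨C₀, hC₀, hMZ⟩ := h2
  intro S _ μ _ φ hφ u v su sv C c₀ hC hc₀
  have hC₀' : 0 < C₀ := by linarith
  obtain ⟨U, hU, bU⟩ : ∃ U : ℝ, 0 < U ∧ ∀ s : Finset ℕ, ∑ j ∈ s, ‖u j‖ ^ 2 ≤ U ^ 2 :=
    ⟨_, by positivity, fin_le su fun j => by positivity⟩
  obtain ⟨V, hV, bV⟩ : ∃ V : ℝ, 0 < V ∧ ∀ s : Finset ℕ, ∑ j ∈ s, ‖v j‖ ^ 2 ≤ V ^ 2 :=
    ⟨_, by positivity, fin_le sv fun j => by positivity⟩
  obtain ⟨ε, hε, eε⟩ : ∃ ε : ℝ, 0 < ε ∧ C₀ * (C * (V * ε) / (1 / 4)) = c₀ / 20 := by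
    refine ⟨c₀ / (80 * C₀ * C * V), by positivity, ?_⟩
    field_simp
    ring
  obtain ⟨J, hJ⟩ := vanish su (ε := ε ^ 2) (by positivity)
  obtain ⟨Λ, hΛ, eΛ⟩ : ∃ Λ : ℝ, 0 < Λ ∧ C₀ * (C * (V * U) / Λ) = c₀ / 20 := by
    refine ⟨20 * C₀ * C * V * U / c₀, by positivity, ?_⟩
    field_simp
  have hJ1 : (0:ℝ) < (J:ℝ) + 1 := by positivity
  obtain ⟨θ1, hθ1, eθ1⟩ : ∃ θ1 : ℝ, 0 < θ1 ∧ (J:ℝ) * θ1 ≤ 1 / (4 * Λ) := by
    refine ⟨1 / (4 * Λ * (J + 1)), by positivity, ?_⟩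
    rw [mul_one_div, div_le_div_iff₀ (by positivity) (by positivity)]
    nlinarith
  obtain ⟨θ, hθ, hθθ1, eθ⟩ : ∃ θ : ℝ, 0 < θ ∧ θ ≤ θ1 ∧ (J:ℝ) * θ ≤ c₀ / 10 := by
    refine ⟨min θ1 (c₀ / (10 * (J + 1))), lt_min hθ1 (by positivity), min_le_left _ _, ?_⟩
    have h3 : (J:ℝ) * min θ1 (c₀ / (10 * (J + 1))) ≤ J * (c₀ / (10 * (J + 1))) :=
      mul_le_mul_of_nonneg_left (min_le_right _ _) (by positivity)
    refine h3.trans ?_
    rw [← mul_div_assoc, div_le_div_iff₀ (by positivity) (by positivity)]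
    nlinarith
  obtain ⟨θ', hθ', hθ'4, hθ'θ1⟩ : ∃ θ' : ℝ, 0 < θ' ∧ θ' ≤ 1 / 4 ∧ θ' ≤ θ1 :=
    ⟨min (1 / 4) θ1, lt_min (by norm_num) hθ1, min_le_left _ _, min_le_right _ _⟩
  obtain ⟨δ₀, hδ₀, hδ1, hδ2⟩ : ∃ δ₀ : ℝ, 0 < δ₀ ∧ C₀ * δ₀ ≤ c₀ / 20 ∧ δ₀ / θ' ≤ c₀ / 10 := by
    refine ⟨min (c₀ / (20 * C₀)) (θ' * c₀ / 10), lt_min (by positivity) (by positivity), ?_, ?_⟩
    · have h3 : C₀ * min (c₀ / (20 * C₀)) (θ' * c₀ / 10) ≤ C₀ * (c₀ / (20 * C₀)) :=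
        mul_le_mul_of_nonneg_left (min_le_left _ _) hC₀'.le
      refine h3.trans (le_of_eq ?_)
      field_simp
    · rw [div_le_iff₀ hθ']
      refine (min_le_right _ _).trans (le_of_eq ?_)
      ring
  refine ⟨J, θ, δ₀, hθ, hδ₀, ?_⟩
  intro l m c ml l0 il hWT mc hc iA hA hl
  have m1 : ∀ p : ℕ × ℕ, Measurable (ct φ (v p.1) (u p.2)) := fun p =>
    (h1.1 S μ φ (fun a => conj (v p.1 a) * u p.2 a) hφ (prod_int _ _)).1
  have hweak : ∀ (I s : Finset ℕ) (U' : ℝ), 0 < U' → ∑ j ∈ s, ‖u j‖ ^ 2 ≤ U' ^ 2 →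
      ∀ t : ℝ, 0 < t →
      MeasurableSet {z | t ≤ √(∑ p ∈ I ×ˢ s, ‖ct φ (v p.1) (u p.2) z‖ ^ 2)} ∧
      ∫ z in {z | t ≤ √(∑ p ∈ I ×ˢ s, ‖ct φ (v p.1) (u p.2) z‖ ^ 2)}, l z ≤
        C₀ * (C * (V * U') / t + δ₀) := by
    intro I s U' hU' hs t ht
    refine ⟨measurableSet_le measurable_const
      (Finset.measurable_fun_sum _ fun p _ => ((m1 p).norm.pow_const 2)).sqrt, ?_⟩
    have h3 := hMZ l C δ₀ il l0 hC.le hδ₀.le hWT (↥(I ×ˢ s)) S μ φ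
      (fun p a => conj (v p.1.1 a) * u p.1.2 a) hφ (fun p => prod_int _ _) t ht
    have e1 : ∀ z, ∑ i : ↥(I ×ˢ s), ‖cau μ φ ((fun (p : ↥(I ×ˢ s)) a =>
        conj (v p.1.1 a) * u p.1.2 a) i) z‖ ^ 2 =
        ∑ p ∈ I ×ˢ s, ‖ct φ (v p.1) (u p.2) z‖ ^ 2 := fun z =>
      Finset.sum_coe_sort (I ×ˢ s) (fun p => ‖ct φ (v p.1) (u p.2) z‖ ^ 2)
    have e2 : ∀ a, ∑ i : ↥(I ×ˢ s), ‖conj (v i.1.1 a) * u i.1.2 a‖ ^ 2 =
        ∑ p ∈ I ×ˢ s, ‖conj (v p.1 a) * u p.2 a‖ ^ 2 := fun a =>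
      Finset.sum_coe_sort (I ×ˢ s) (fun p => ‖conj (v p.1 a) * u p.2 a‖ ^ 2)
    simp only [e1, e2] at h3
    refine h3.trans ?_
    refine mul_le_mul_of_nonneg_left ?_ hC₀'.le
    refine add_le_add ?_ le_rfl
    refine div_le_div_of_nonneg_right ?_ ht.le
    exact mul_le_mul_of_nonneg_left (prod_bound u v I s hU' hV hs (bV I)) hC.le
  set s1 := (Finset.range m).filter (fun j => ¬ j < J) with hs1
  set s2 := (Finset.range m).filter (fun j => j < J) with hs2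
  obtain ⟨mE1, hE1⟩ := hweak (Finset.range m) s1 ε hε (hJ s1 fun j hj => by
    rw [hs1, Finset.mem_filter] at hj
    exact not_lt.1 hj.2) (1 / 4) (by norm_num)
  obtain ⟨mE2, hE2⟩ := hweak (Finset.range m) s2 U hU (bU s2) Λ hΛ
  set E1 : Set ℂ := {z | 1 / 4 ≤ √(∑ p ∈ Finset.range m ×ˢ s1,
    ‖ct φ (v p.1) (u p.2) z‖ ^ 2)} with hE1d
  set E2 : Set ℂ := {z | Λ ≤ √(∑ p ∈ Finset.range m ×ˢ s2,
    ‖ct φ (v p.1) (u p.2) z‖ ^ 2)} with hE2d
  set G : ℕ → Set ℂ := fun j => {z | θ ≤ ‖c j z‖} with hGd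
  have mG : ∀ j, MeasurableSet (G j) := fun j => measurableSet_le measurable_const (mc j).norm
  by_contra hcon
  push Not at hcon
  classical
  set T := s2.filter (fun j => v j ≠ 0) with hT
  set W : ℂ → ℝ := fun z => nm m (Am φ u v m z fun j => c j z) with hW
  have hind : ∀ (A : Set ℂ) (z : ℂ), 0 ≤ A.indicator l z := fun A z =>
    indicator_nonneg (fun w _ => l0 w) z
  have hWn : ∀ z, 0 ≤ W z := fun z => Real.sqrt_nonneg _
  have hpt : ∀ z, l z ≤ (E1.indicator l z + E2.indicator l z + θ'⁻¹ * (l z * W z)) +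
      ∑ j ∈ T, (G j).indicator l z := by
    intro z
    have n1 := hind E1 z
    have n2 := hind E2 z
    have n3 : 0 ≤ θ'⁻¹ * (l z * W z) := mul_nonneg (by positivity) (mul_nonneg (l0 z) (hWn z))
    have n4 : 0 ≤ ∑ j ∈ T, (G j).indicator l z := Finset.sum_nonneg fun j _ => hind (G j) z
    by_cases z1 : z ∈ E1
    · have : E1.indicator l z = l z := indicator_of_mem z1 l
      linarith
    by_cases z2 : z ∈ E2
    · have : E2.indicator l z = l z := indicator_of_mem z2 l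
      linarith
    by_cases z3 : θ' ≤ W z
    · have h3 : l z ≤ θ'⁻¹ * (l z * W z) := by
        have h4 : 1 ≤ θ'⁻¹ * W z := by
          rw [inv_mul_eq_div]
          exact (one_le_div hθ').2 z3
        nlinarith [l0 z]
      linarith
    have z1' : √(∑ p ∈ Finset.range m ×ˢ s1, ‖ct φ (v p.1) (u p.2) z‖ ^ 2) < 1 / 4 :=
      not_le.1 z1
    have z2' : √(∑ p ∈ Finset.range m ×ˢ s2, ‖ct φ (v p.1) (u p.2) z‖ ^ 2) < Λ :=
      not_le.1 z2
    have z3' : W z < θ' := not_le.1 z3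
    obtain ⟨j, hjJ, hjm, hj⟩ := ptw m J (fun j => c j z) (fun i j => ct φ (v i) (u j) z) hΛ (hc z)
      (lt_of_lt_of_le z3' hθ'4) z1' z2' hθ1.le eθ1
    have hvj : v j ≠ 0 := by
      intro hv0
      have h3 : ‖Am φ u v m z (fun j => c j z) j‖ ≤ W z := le_nm m _ hjm
      have h4 : Am φ u v m z (fun j => c j z) j = c j z := by
        unfold Am
        rw [hv0, Finset.sum_eq_zero, sub_zero]
        intro i _
        rw [ct_zero, zero_mul]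
      rw [h4] at h3
      linarith
    have hjT : j ∈ T := by
      rw [hT, Finset.mem_filter, hs2, Finset.mem_filter, Finset.mem_range]
      exact ⟨⟨hjm, hjJ⟩, hvj⟩
    have hjG : z ∈ G j := le_trans hθθ1 hj.le
    have h5 : (G j).indicator l z ≤ ∑ j ∈ T, (G j).indicator l z :=
      Finset.single_le_sum (f := fun j => (G j).indicator l z) (fun j _ => hind (G j) z) hjT
    rw [indicator_of_mem hjG] at h5
    linarith
  have i1 : Integrable (E1.indicator l) := il.indicator mE1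
  have i2 : Integrable (E2.indicator l) := il.indicator mE2
  have i3 : Integrable (fun z => θ'⁻¹ * (l z * W z)) := iA.const_mul _
  have i4 : Integrable (fun z => ∑ j ∈ T, (G j).indicator l z) :=
    integrable_finsetSum _ fun j _ => il.indicator (mG j)
  have i12 : Integrable (fun z => E1.indicator l z + E2.indicator l z) := i1.add i2
  have i123 : Integrable (fun z => E1.indicator l z + E2.indicator l z + θ'⁻¹ * (l z * W z)) :=
    i12.add i3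
  have hfin : ∫ z, l z ≤ ((∫ z in E1, l z) + (∫ z in E2, l z) + θ'⁻¹ * ∫ z, l z * W z) +
      ∑ j ∈ T, ∫ z in G j, l z := by
    have h3 := integral_mono il (i123.add i4) hpt
    refine h3.trans (le_of_eq ?_)
    have h4 := integral_add i123 i4
    have h5 := integral_add i12 i3
    have h6 := integral_add i1 i2
    have h7 : ∫ z, ∑ j ∈ T, (G j).indicator l z = ∑ j ∈ T, ∫ z in G j, l z := by
      rw [integral_finsetSum _ fun j _ => il.indicator (mG j)]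
      exact Finset.sum_congr rfl fun j _ => integral_indicator (mG j)
    refine h4.trans ?_
    rw [h5, h6, h7, integral_indicator mE1, integral_indicator mE2, integral_const_mul]
  have hlast : ∑ j ∈ T, ∫ z in G j, l z ≤ J * θ := by
    have h3 : ∑ j ∈ T, ∫ z in G j, l z ≤ ∑ j ∈ T, θ := by
      refine Finset.sum_le_sum fun j hj => ?_
      rw [hT, Finset.mem_filter, hs2, Finset.mem_filter, Finset.mem_range] at hj
      exact (hcon j hj.1.2 hj.1.1 hj.2).le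
    refine h3.trans ?_
    rw [Finset.sum_const, nsmul_eq_mul]
    refine mul_le_mul_of_nonneg_right ?_ hθ.le
    have h7 : T ⊆ Finset.range J := by
      intro j hj
      rw [hT, Finset.mem_filter, hs2, Finset.mem_filter] at hj
      exact Finset.mem_range.2 hj.1.2
    have h8 := Finset.card_le_card h7
    rw [Finset.card_range] at h8
    exact_mod_cast h8
  have hA' : θ'⁻¹ * ∫ z, l z * W z ≤ δ₀ / θ' := by
    rw [inv_mul_eq_div]
    exact div_le_div_of_nonneg_right hA hθ'.le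
  have hE1' : C₀ * (C * (V * ε) / (1 / 4) + δ₀) = C₀ * (C * (V * ε) / (1 / 4)) + C₀ * δ₀ := by ring
  have hE2' : C₀ * (C * (V * U) / Λ + δ₀) = C₀ * (C * (V * U) / Λ) + C₀ * δ₀ := by ring
  rw [hE1', eε] at hE1
  rw [hE2', eΛ] at hE2
  linarith

end Pool.Agent.Q275.TC
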