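import Pool.Agent.Q130.TC.Stm
import Pool.Agent.H352R3.SA.Pot

/-!
# Project TC (helper130): the field near a point (FLD)
-/

set_option autoImplicit false

namespace Pool.Agent.Q275.TC

open MeasureTheory Set Metric Filter Topology
open scoped ComplexConjugate
open Pool.Agent.H352R3.SA (Den pot LK Gam pot_integrable)
open Pool.Agent.Q130.TC

/-- dyadic decomposition of the exterior of a disc -/
theorem far_sum {H : ℂ → ℝ} (cH : Continuous H) (sH : HasCompactSupport H) (H0 : ∀ w, 0 ≤ H w)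
    {y : ℂ} {s δ R : ℝ} (hR : 0 < R) (hsR : s < R) (hδ : 0 ≤ δ)
    (hb : ∀ ρ, s < ρ → ∫ w in ball y ρ, H w ≤ δ * ρ) :
    ∃ F : ℂ → ℝ, Integrable F ∧ (∀ w, 0 ≤ F w) ∧
      (∀ w, R ≤ ‖w - y‖ → H w * (‖w - y‖ ^ 2)⁻¹ ≤ F w) ∧ ∫ w, F w ≤ 4 * δ / R := by
  have iH : Integrable H := cH.integrable_of_hasCompactSupport sH
  obtain ⟨M, hM⟩ := (sH.isCompact.isBounded).subset_closedBall y
  obtain ⟨n, hn⟩ := pow_unbounded_of_one_lt (M / R) (one_lt_two (α := ℝ))
  rw [div_lt_iff₀ hR] at hn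
  have hterm : ∀ (j : ℕ) (w : ℂ), 0 ≤ (4 ^ j * R ^ 2)⁻¹ *
      (ball y (2 ^ (j + 1) * R)).indicator H w := by
    intro j w
    refine mul_nonneg (by positivity) ?_
    exact indicator_nonneg (fun w _ => H0 w) w
  have hint : ∀ j : ℕ, Integrable (fun w => (4 ^ j * R ^ 2)⁻¹ *
      (ball y (2 ^ (j + 1) * R)).indicator H w) := fun j =>
    (iH.indicator measurableSet_ball).const_mul _
  refine ⟨fun w => ∑ j ∈ Finset.range n, (4 ^ j * R ^ 2)⁻¹ *
    (ball y (2 ^ (j + 1) * R)).indicator H w, integrable_finsetSum _ fun j _ => hint j,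
    fun w => Finset.sum_nonneg fun j _ => hterm j w, ?_, ?_⟩
  · intro w hw
    by_cases hz : H w = 0
    · rw [hz, zero_mul]
      exact Finset.sum_nonneg fun j _ => hterm j w
    have h1 : ‖w - y‖ ≤ M := by
      have h2 := hM (subset_tsupport H (Function.mem_support.2 hz))
      rwa [mem_closedBall, dist_eq_norm] at h2
    have h2 : 1 ≤ ‖w - y‖ / R := (one_le_div hR).2 hw
    obtain ⟨k, hk1, hk2⟩ := exists_nat_pow_near h2 (one_lt_two (α := ℝ))
    rw [le_div_iff₀ hR] at hk1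
    rw [div_lt_iff₀ hR] at hk2
    have hkn : k < n := by
      have h3 : (2:ℝ) ^ k * R < 2 ^ n * R := lt_of_le_of_lt (hk1.trans h1) hn
      have h4 : (2:ℝ) ^ k < 2 ^ n := lt_of_mul_lt_mul_right h3 hR.le
      exact (pow_lt_pow_iff_right₀ (one_lt_two (α := ℝ))).1 h4
    have h5 : H w * (‖w - y‖ ^ 2)⁻¹ ≤ (4 ^ k * R ^ 2)⁻¹ *
        (ball y (2 ^ (k + 1) * R)).indicator H w := by
      have h6 : w ∈ ball y (2 ^ (k + 1) * R) := by
        rw [mem_ball, dist_eq_norm]
        exact hk2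
      rw [indicator_of_mem h6, mul_comm]
      refine mul_le_mul_of_nonneg_right ?_ (H0 w)
      refine inv_anti₀ (by positivity) ?_
      have h7 : (4:ℝ) ^ k * R ^ 2 = (2 ^ k * R) ^ 2 := by
        rw [mul_pow, ← pow_mul, mul_comm k 2, pow_mul]
        norm_num
      rw [h7]
      exact pow_le_pow_left₀ (by positivity) hk1 2
    exact h5.trans (Finset.single_le_sum (f := fun j => (4 ^ j * R ^ 2)⁻¹ *
      (ball y (2 ^ (j + 1) * R)).indicator H w) (fun j _ => hterm j w) (Finset.mem_range.2 hkn))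
  · rw [integral_finsetSum _ fun j _ => hint j]
    have h1 : ∀ j ∈ Finset.range n, ∫ w, (4 ^ j * R ^ 2)⁻¹ *
        (ball y (2 ^ (j + 1) * R)).indicator H w ≤ 2 * δ / R * (1 / 2) ^ j := by
      intro j _
      rw [integral_const_mul, integral_indicator measurableSet_ball]
      have h2 : s < 2 ^ (j + 1) * R := by
        have h3 : (1:ℝ) ≤ 2 ^ (j + 1) := one_le_pow₀ one_le_two
        nlinarith
      have h4 := hb _ h2
      calc (4 ^ j * R ^ 2)⁻¹ * ∫ w in ball y (2 ^ (j + 1) * R), H w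
          ≤ (4 ^ j * R ^ 2)⁻¹ * (δ * (2 ^ (j + 1) * R)) :=
            mul_le_mul_of_nonneg_left h4 (by positivity)
        _ = 2 * δ / R * (1 / 2) ^ j := by
            have h7 : (4:ℝ) ^ j = 2 ^ j * 2 ^ j := by
              rw [← mul_pow]
              norm_num
            rw [h7, one_div, inv_pow, pow_succ]
            field_simp
            ring
    refine (Finset.sum_le_sum h1).trans ?_
    rw [← Finset.mul_sum]
    have h8 := sum_geometric_two_le n
    calc 2 * δ / R * ∑ i ∈ Finset.range n, (1 / 2 : ℝ) ^ i ≤ 2 * δ / R * 2 :=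
          mul_le_mul_of_nonneg_left h8 (by positivity)
      _ = 4 * δ / R := by ring

theorem fld_gen {φ : ℂ → ℂ} (cφ : Continuous φ) (sφ : HasCompactSupport φ) {H : ℂ → ℝ}
    (cH : Continuous H) (sH : HasCompactSupport H) (H0 : ∀ w, 0 ≤ H w) (hφ : ∀ w, ‖φ w‖ ≤ H w)
    {y : ℂ} {s δ : ℝ} (hs : 0 < s) (hδ : 0 ≤ δ)
    (hb : ∀ ρ, s < ρ → ∫ w in ball y ρ, H w ≤ δ * ρ) {ρ : ℝ} (hρ : s / 2 ≤ ρ) (hρ8 : ρ ≤ 8 * s)
    {z : ℂ} (hz : ‖z - y‖ ≤ 25 * s) :
    ‖- pot φ z + (∫ w in {w | ρ ≤ ‖w - y‖}, φ w * (y - w)⁻¹) +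
      ∫ w in ball y (50 * s), φ w * (z - w)⁻¹‖ ≤ 104 * δ := by
  have iH : Integrable H := cH.integrable_of_hasCompactSupport sH
  have iz := pot_integrable cφ sφ z
  have iy := pot_integrable cφ sφ y
  have hρ0 : 0 < ρ := by linarith
  obtain ⟨F, iF, F0, hF, hFi⟩ := far_sum cH sH H0 (R := 50 * s) (by linarith) (by linarith) hδ hb
  have mB : MeasurableSet (ball y (50 * s)) := measurableSet_ball
  have hBc : (ball y (50 * s))ᶜ = {w | 50 * s ≤ ‖w - y‖} := by
    ext w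
    rw [mem_compl_iff, mem_ball, dist_eq_norm, not_lt]
    rfl
  have e1 : pot φ z = (∫ w in ball y (50 * s), φ w * (z - w)⁻¹) +
      ∫ w in (ball y (50 * s))ᶜ, φ w * (z - w)⁻¹ := (integral_add_compl mB iz).symm
  have mA : MeasurableSet ({w : ℂ | ρ ≤ ‖w - y‖} ∩ ball y (50 * s)) := by
    refine MeasurableSet.inter ?_ mB
    exact (isClosed_le continuous_const (by fun_prop)).measurableSet
  have e2 : (∫ w in {w | ρ ≤ ‖w - y‖}, φ w * (y - w)⁻¹) =
      (∫ w in {w : ℂ | ρ ≤ ‖w - y‖} ∩ ball y (50 * s), φ w * (y - w)⁻¹) +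
      ∫ w in (ball y (50 * s))ᶜ, φ w * (y - w)⁻¹ := by
    rw [← setIntegral_union ?_ mB.compl iy.integrableOn iy.integrableOn]
    · congr 2
      ext w
      simp only [mem_union, mem_inter_iff, mem_compl_iff, mem_ball, dist_eq_norm]
      constructor
      · intro hw
        by_cases h1 : ‖w - y‖ < 50 * s
        · exact Or.inl ⟨hw, h1⟩
        · exact Or.inr h1
      · rintro (hw | hw)
        · exact hw.1
        · show ρ ≤ ‖w - y‖
          linarith [not_lt.1 hw]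
    · exact disjoint_compl_right.mono_left inter_subset_right
  have e3 : - pot φ z + (∫ w in {w | ρ ≤ ‖w - y‖}, φ w * (y - w)⁻¹) +
      (∫ w in ball y (50 * s), φ w * (z - w)⁻¹) =
      (∫ w in {w : ℂ | ρ ≤ ‖w - y‖} ∩ ball y (50 * s), φ w * (y - w)⁻¹) +
      ∫ w in (ball y (50 * s))ᶜ, (φ w * (y - w)⁻¹ - φ w * (z - w)⁻¹) := by
    rw [integral_sub iy.integrableOn iz.integrableOn, e1, e2]
    ring
  rw [e3]
  refine (norm_add_le _ _).trans ?_
  have b1 : ‖∫ w in {w : ℂ | ρ ≤ ‖w - y‖} ∩ ball y (50 * s), φ w * (y - w)⁻¹‖ ≤ 100 * δ := by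
    have h1 : ‖∫ w in {w : ℂ | ρ ≤ ‖w - y‖} ∩ ball y (50 * s), φ w * (y - w)⁻¹‖ ≤
        ∫ w in {w : ℂ | ρ ≤ ‖w - y‖} ∩ ball y (50 * s), ρ⁻¹ * H w := by
      refine norm_integral_le_of_norm_le (iH.const_mul _).integrableOn ?_
      refine (ae_restrict_iff' mA).2 (Eventually.of_forall fun w hw => ?_)
      rw [norm_mul, norm_inv, norm_sub_rev y w, mul_comm]
      exact mul_le_mul (inv_anti₀ hρ0 hw.1) (hφ w) (norm_nonneg _) (by positivity)
    have h2 : ∫ w in {w : ℂ | ρ ≤ ‖w - y‖} ∩ ball y (50 * s), ρ⁻¹ * H w ≤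
        ∫ w in ball y (50 * s), ρ⁻¹ * H w := by
      refine setIntegral_mono_set (iH.const_mul _).integrableOn ?_ ?_
      · exact Eventually.of_forall fun w => mul_nonneg (by positivity) (H0 w)
      · exact inter_subset_right.eventuallyLE
    have h3 : ∫ w in ball y (50 * s), ρ⁻¹ * H w ≤ ρ⁻¹ * (δ * (50 * s)) := by
      rw [integral_const_mul]
      exact mul_le_mul_of_nonneg_left (hb _ (by linarith)) (by positivity)
    have h4 : ρ⁻¹ * (δ * (50 * s)) ≤ 100 * δ := by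
      rw [inv_mul_le_iff₀ hρ0]
      nlinarith
    linarith
  have b2 : ‖∫ w in (ball y (50 * s))ᶜ, (φ w * (y - w)⁻¹ - φ w * (z - w)⁻¹)‖ ≤ 4 * δ := by
    have h1 : ‖∫ w in (ball y (50 * s))ᶜ, (φ w * (y - w)⁻¹ - φ w * (z - w)⁻¹)‖ ≤
        ∫ w in (ball y (50 * s))ᶜ, 50 * s * F w := by
      refine norm_integral_le_of_norm_le (iF.const_mul _).integrableOn ?_
      refine (ae_restrict_iff' mB.compl).2 (Eventually.of_forall fun w hw => ?_)
      rw [hBc] at hw
      have hw1 : 50 * s ≤ ‖w - y‖ := hw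
      have hw2 : ‖w - y‖ / 2 ≤ ‖z - w‖ := by
        have h5 : ‖w - y‖ ≤ ‖z - w‖ + ‖z - y‖ := by
          have h6 : w - y = -(z - w) + (z - y) := by ring
          rw [h6]
          refine (norm_add_le _ _).trans ?_
          rw [norm_neg]
        linarith
      have hwp : 0 < ‖w - y‖ := by linarith
      have hyw : y - w ≠ 0 := by
        rw [← norm_pos_iff, norm_sub_rev]
        exact hwp
      have hzw : z - w ≠ 0 := by
        rw [← norm_pos_iff]
        linarith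
      have h7 : φ w * (y - w)⁻¹ - φ w * (z - w)⁻¹ = φ w * ((z - y) * ((y - w)⁻¹ * (z - w)⁻¹)) := by
        field_simp
        ring
      rw [h7, norm_mul, norm_mul, norm_mul, norm_inv, norm_inv, norm_sub_rev y w]
      have h8 : ‖z - w‖⁻¹ ≤ 2 * ‖w - y‖⁻¹ := by
        have h9 : ‖z - w‖⁻¹ ≤ (‖w - y‖ / 2)⁻¹ := inv_anti₀ (by positivity) hw2
        rwa [inv_div, div_eq_mul_inv] at h9
      have h10 : ‖z - y‖ * (‖w - y‖⁻¹ * ‖z - w‖⁻¹) ≤ 50 * s * (‖w - y‖ ^ 2)⁻¹ := by
        calc ‖z - y‖ * (‖w - y‖⁻¹ * ‖z - w‖⁻¹)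
            ≤ (25 * s) * (‖w - y‖⁻¹ * (2 * ‖w - y‖⁻¹)) := by
              refine mul_le_mul hz ?_ (by positivity) (by positivity)
              exact mul_le_mul_of_nonneg_left h8 (by positivity)
          _ = 50 * s * (‖w - y‖ ^ 2)⁻¹ := by
              rw [pow_two, mul_inv]
              ring
      calc ‖φ w‖ * (‖z - y‖ * (‖w - y‖⁻¹ * ‖z - w‖⁻¹))
          ≤ H w * (50 * s * (‖w - y‖ ^ 2)⁻¹) :=
            mul_le_mul (hφ w) h10 (by positivity) (H0 w)
        _ = 50 * s * (H w * (‖w - y‖ ^ 2)⁻¹) := by ring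
        _ ≤ 50 * s * F w := mul_le_mul_of_nonneg_left (hF w hw1) (by positivity)
    have h2 : ∫ w in (ball y (50 * s))ᶜ, 50 * s * F w ≤ ∫ w, 50 * s * F w :=
      setIntegral_le_integral (iF.const_mul _)
        (Eventually.of_forall fun w => mul_nonneg (by positivity) (F0 w))
    have h3 : ∫ w, 50 * s * F w ≤ 50 * s * (4 * δ / (50 * s)) := by
      rw [integral_const_mul]
      exact mul_le_mul_of_nonneg_left hFi (by positivity)
    have h4 : 50 * s * (4 * δ / (50 * s)) = 4 * δ := by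
      field_simp
    linarith
  linarith

theorem fld (h : S_GAM) : Pool.Agent.Q130.TC.S_FLD := by
  refine ⟨104, by norm_num, ?_⟩
  intro g y s δ hg hs hδ hb ρ hρ hρ8 z hz
  obtain ⟨cL, cK, eL, eK, -, -, -, -, -⟩ := h g hg
  have cH : Continuous (hh g) := by
    unfold hh
    exact hg.cont.mul ((continuous_const.add (cL.norm.pow 2)).add (cK.norm.pow 2))
  have sH : HasCompactSupport (hh g) := by
    unfold hh
    exact hg.supp.mul_right
  have H0 : ∀ w, 0 ≤ hh g w := fun w => mul_nonneg (hg.nonneg w) (by positivity)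
  have key : ∀ F : ℂ → ℂ, Continuous F →
      Continuous (fun w => (g w : ℂ) * conj (F w)) ∧
        HasCompactSupport (fun w => (g w : ℂ) * conj (F w)) := by
    intro F hF
    exact ⟨(Complex.continuous_ofReal.comp hg.cont).mul (Complex.continuous_conj.comp hF),
      (hg.supp.comp_left (g := fun t : ℝ => (t : ℂ)) Complex.ofReal_zero).mul_right⟩
  have nb : ∀ (F : ℂ → ℂ) (w : ℂ), ‖(g w : ℂ) * conj (F w)‖ = g w * ‖F w‖ := by
    intro F w
    rw [norm_mul, Complex.norm_real, Real.norm_eq_abs, abs_of_nonneg (hg.nonneg w),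
      RCLike.norm_conj]
  constructor
  · obtain ⟨c1, s1⟩ := key _ cL
    have h1 := fld_gen c1 s1 cH sH H0 (fun w => by
      rw [nb]
      refine mul_le_mul_of_nonneg_left ?_ (hg.nonneg w)
      nlinarith [sq_nonneg (‖fL g w‖ - 1), sq_nonneg ‖fK g w‖]) hs hδ hb hρ hρ8 hz
    rw [eK z]
    exact h1
  · obtain ⟨c1, s1⟩ := key _ cK
    have h1 := fld_gen c1 s1 cH sH H0 (fun w => by
      rw [nb]
      refine mul_le_mul_of_nonneg_left ?_ (hg.nonneg w)
      nlinarith [sq_nonneg (‖fK g w‖ - 1), sq_nonneg ‖fL g w‖]) hs hδ hb hρ hρ8 hz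
    have h2 : fL g z - 1 = - pot (fun w => (g w : ℂ) * conj (fK g w)) z := by
      rw [eL z]
      ring
    rw [h2]
    exact h1

end Pool.Agent.Q275.TC
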