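import Pool.Agent.Q130.TC.Stm
import Pool.Agent.H352R3.SA.Fub
import Pool.Agent.H352R3.SA.Pot
import Pool.Agent.H352R3.SA.Quo
import Pool.Agent.H352R3.SA.Mon

/-!
# Project TC (helper130): lower bounds for the soft capacity (VAR), capacity of a disc (RAD)
-/

set_option autoImplicit false

namespace Pool.Agent.Q275.TC

open MeasureTheory Set Metric Filter Topology
open scoped ComplexConjugate
open Pool.Agent.H352R3.SA (Den pot LK Gam Gam_mem_adm anti pot_integrable pot_continuous)
open Pool.Agent.Q130.TC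

theorem rad : S_RAD := by
  intro g hg c r hr h0
  have hts : tsupport g ⊆ closedBall c r := by
    refine closure_minimal ?_ isClosed_closedBall
    intro z hz
    rw [mem_closedBall, dist_eq_norm]
    by_contra hcon
    exact hz (h0 z (not_le.1 hcon))
  obtain ⟨f, l, hd, hb, hl, hG⟩ := Gam_mem_adm hg (isCompact_closedBall c r) hts
  have hmem : ∀ z : ℂ, r < ‖z‖ → z + c ∈ (closedBall c r)ᶜ := by
    intro z hz hcon
    rw [mem_closedBall, dist_eq_norm, add_sub_cancel_right] at hcon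
    linarith
  have hinv : Tendsto (fun z : ℂ => z⁻¹) (cocompact ℂ) (𝓝 0) := by
    rw [← Metric.cobounded_eq_cocompact]
    exact tendsto_inv₀_cobounded
  have hne : ∀ᶠ z : ℂ in cocompact ℂ, z ≠ 0 := by
    have h1 : ({0} : Set ℂ)ᶜ ∈ cocompact ℂ := isCompact_singleton.compl_mem_cocompact
    filter_upwards [h1] with z hz using hz
  have hf0 : Tendsto f (cocompact ℂ) (𝓝 0) := by
    have h1 := hinv.mul hl
    rw [zero_mul] at h1
    refine h1.congr' ?_
    filter_upwards [hne] with z hz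
    rw [← mul_assoc, inv_mul_cancel₀ hz, one_mul]
  have hsh : Tendsto (fun z : ℂ => z + c) (cocompact ℂ) (cocompact ℂ) :=
    (Homeomorph.addRight c).isClosedEmbedding.tendsto_cocompact
  have hlim : Tendsto (fun z : ℂ => z * f (z + c)) (cocompact ℂ) (𝓝 l) := by
    have h1 := (hl.comp hsh).sub ((hf0.comp hsh).const_mul c)
    rw [mul_zero, sub_zero] at h1
    refine h1.congr fun z => ?_
    simp only [Function.comp]
    ring
  have h1 := Pool.Agent.H352R3.SA.MonAux.inf_est hr (f := fun z => f (z + c)) (l := l)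
    (hd.comp (differentiableOn_id.add_const c) fun z hz => hmem z hz)
    (fun z hz => hb _ (hmem z hz)) hlim
  rw [hG]
  exact h1.1

theorem den_mul {μ : ℂ → ℝ} (hμ : Den μ) {F : ℂ → ℂ} (hF : Continuous F) :
    Continuous (fun z => (μ z : ℂ) * F z) ∧ HasCompactSupport (fun z => (μ z : ℂ) * F z) :=
  ⟨(Complex.continuous_ofReal.comp hμ.cont).mul hF,
    (hμ.supp.comp_left (g := fun t : ℝ => (t : ℂ)) Complex.ofReal_zero).mul_right⟩

theorem den_mulR {μ : ℂ → ℝ} (hμ : Den μ) {F : ℂ → ℝ} (hF : Continuous F) :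
    Integrable (fun z => μ z * F z) :=
  (hμ.cont.mul hF).integrable_of_hasCompactSupport hμ.supp.mul_right

theorem var (h : S_GAM) : S_VAR := by
  intro μ hμ q hq cq β hβ cβ hqβ hβ0
  obtain ⟨cL, cK, eL, eK, -, eG, eG2, -, -⟩ := h μ hμ
  set L := fL μ with hL
  set K := fK μ with hK
  obtain ⟨a1, a2⟩ := den_mul hμ (F := fun w => conj (L w)) (Complex.continuous_conj.comp cL)
  obtain ⟨b1, b2⟩ := den_mul hμ (F := fun w => conj (K w)) (Complex.continuous_conj.comp cK)
  set D : ℂ → ℂ := fun w => q w - (μ w : ℂ) * conj (L w) with hD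
  have cD : Continuous D := hq.sub a1
  have sD : HasCompactSupport D := cq.sub a2
  have ck : Continuous (pot D) := pot_continuous cD sD
  have hpq : ∀ z, pot q z = pot D z - K z := by
    intro z
    rw [eK z, sub_neg_eq_add]
    unfold pot
    rw [← integral_add (pot_integrable cD sD z) (pot_integrable a1 a2 z)]
    refine integral_congr_ae (Eventually.of_forall fun w => ?_)
    show q w * (z - w)⁻¹ = (q w - (μ w : ℂ) * conj (L w)) * (z - w)⁻¹ + _
    ring
  have hcross : ∫ z, (μ z : ℂ) * conj (K z) * pot D z = - ∫ z, D z * (1 - L z) := by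
    rw [anti b1 b2 cD sD]
    congr 1
    refine integral_congr_ae (Eventually.of_forall fun w => ?_)
    show D w * pot (fun w => (μ w : ℂ) * conj (K w)) w = D w * (1 - L w)
    rw [eL w]
    ring
  have i1 : Integrable (fun z => μ z * ‖K z‖ ^ 2) := den_mulR hμ (cK.norm.pow 2)
  have i2 : Integrable (fun z => μ z * ‖pot D z‖ ^ 2) := den_mulR hμ (ck.norm.pow 2)
  have i3 : Integrable (fun z => μ z * ‖L z‖ ^ 2) := den_mulR hμ (cL.norm.pow 2)
  have i4 : Integrable (fun z => (μ z : ℂ) * conj (K z) * pot D z) :=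
    (b1.mul ck).integrable_of_hasCompactSupport b2.mul_right
  have iq : Integrable q := hq.integrable_of_hasCompactSupport cq
  have iβ : Integrable β := hβ.integrable_of_hasCompactSupport cβ
  have iqL : Integrable (fun z => q z * L z) :=
    (hq.mul cL).integrable_of_hasCompactSupport cq.mul_right
  have iD : Integrable D := cD.integrable_of_hasCompactSupport sD
  have iDL : Integrable (fun z => D z * L z) :=
    (cD.mul cL).integrable_of_hasCompactSupport sD.mul_right
  have ia : Integrable (fun z => (μ z : ℂ) * conj (L z)) := a1.integrable_of_hasCompactSupport a2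
  -- expansion of the energy
  have e1 : ∫ z, ‖pot q z‖ ^ 2 * μ z = (∫ z, μ z * ‖pot D z‖ ^ 2) + (∫ z, μ z * ‖K z‖ ^ 2) -
      2 * (∫ z, (μ z : ℂ) * conj (K z) * pot D z).re := by
    have e0 : ∀ z, ‖pot q z‖ ^ 2 * μ z = μ z * ‖pot D z‖ ^ 2 + μ z * ‖K z‖ ^ 2 -
        2 * ((μ z : ℂ) * conj (K z) * pot D z).re := by
      intro z
      rw [hpq z, ← Complex.normSq_eq_norm_sq, ← Complex.normSq_eq_norm_sq,
        ← Complex.normSq_eq_norm_sq, Complex.normSq_sub]
      have e2 : ((μ z : ℂ) * conj (K z) * pot D z).re = μ z * (pot D z * conj (K z)).re := by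
        rw [mul_assoc, Complex.re_ofReal_mul, mul_comm (conj (K z))]
      rw [e2]
      ring
    have e5 : ∫ z, ((μ z : ℂ) * conj (K z) * pot D z).re =
        (∫ z, (μ z : ℂ) * conj (K z) * pot D z).re := integral_re i4
    have i12 : Integrable (fun z => μ z * ‖pot D z‖ ^ 2 + μ z * ‖K z‖ ^ 2) := i2.add i1
    have i42 : Integrable (fun z => 2 * ((μ z : ℂ) * conj (K z) * pot D z).re) :=
      i4.re.const_mul 2
    rw [integral_congr_ae (Eventually.of_forall e0), integral_sub i12 i42, integral_add i2 i1,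
      integral_const_mul, e5]
  have e3 : (∫ z, D z * (1 - L z)) = (∫ z, q z) - (Gam μ : ℂ) - (∫ z, q z * L z) +
      ((∫ z, μ z * ‖L z‖ ^ 2 : ℝ) : ℂ) := by
    have e4 : ∫ z, D z * (1 - L z) = (∫ z, D z) - ∫ z, D z * L z := by
      rw [← integral_sub iD iDL]
      refine integral_congr_ae (Eventually.of_forall fun w => ?_)
      show D w * (1 - L w) = D w - D w * L w
      ring
    have e5 : ∫ z, D z = (∫ z, q z) - (Gam μ : ℂ) := by
      rw [← eG2, ← integral_sub iq ia]
    have e6 : ∫ z, D z * L z = (∫ z, q z * L z) - ((∫ z, μ z * ‖L z‖ ^ 2 : ℝ) : ℂ) := by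
      have i3c : Integrable (fun z => ((μ z * ‖L z‖ ^ 2 : ℝ) : ℂ)) := i3.ofReal
      rw [← integral_complex_ofReal, ← integral_sub iqL i3c]
      refine integral_congr_ae (Eventually.of_forall fun w => ?_)
      show (q w - (μ w : ℂ) * conj (L w)) * L w = q w * L w - ((μ w * ‖L w‖ ^ 2 : ℝ) : ℂ)
      have e7 : conj (L w) * L w = ((‖L w‖ ^ 2 : ℝ) : ℂ) := by
        rw [← Complex.normSq_eq_norm_sq, Complex.normSq_eq_conj_mul_self]
      rw [sub_mul, mul_assoc, e7, Complex.ofReal_mul]
    rw [e4, e5, e6]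
    ring
  have e8 : 2 * (∫ z, q z * L z).re ≤ (∫ z, β z) + ∫ z, μ z * ‖L z‖ ^ 2 := by
    have e9 : ∫ z, (q z * L z).re = (∫ z, q z * L z).re := integral_re iqL
    rw [← e9, ← integral_const_mul, ← integral_add iβ i3]
    refine integral_mono (iqL.re.const_mul 2) (iβ.add i3) fun z => ?_
    show 2 * (q z * L z).re ≤ β z + μ z * ‖L z‖ ^ 2
    have f1 : (q z * L z).re ≤ ‖q z‖ * ‖L z‖ := by
      rw [← norm_mul]
      exact Complex.re_le_norm _
    have f2 : ‖q z‖ ^ 2 ≤ β z * μ z := hqβ z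
    have f3 := hβ0 z
    have f4 := hμ.nonneg z
    have f5 : 0 ≤ ‖q z‖ := norm_nonneg _
    have f6 : 0 ≤ ‖L z‖ := norm_nonneg _
    have f7 : (2 * (‖q z‖ * ‖L z‖)) ^ 2 ≤ (β z + μ z * ‖L z‖ ^ 2) ^ 2 := by
      have g1 : (‖q z‖ * ‖L z‖) ^ 2 ≤ β z * (μ z * ‖L z‖ ^ 2) := by
        rw [mul_pow, ← mul_assoc]
        exact mul_le_mul_of_nonneg_right f2 (by positivity)
      nlinarith [sq_nonneg (β z - μ z * ‖L z‖ ^ 2)]
    have f8 := abs_le_of_sq_le_sq' f7 (by positivity)
    linarith [f8.2]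
  have e10 : 0 ≤ ∫ z, μ z * ‖pot D z‖ ^ 2 :=
    integral_nonneg fun z => mul_nonneg (hμ.nonneg z) (by positivity)
  rw [e1, hcross, e3]
  simp only [Complex.neg_re, Complex.add_re, Complex.sub_re, Complex.ofReal_re]
  linarith [eG]

end Pool.Agent.Q275.TC
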